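import Pool.Agent.Lib_helper60.AVM.Defs
import Pool.Agent.Lib_helper64.AVM.NU1

/-!
# Project AVM (MP_05dcdc_nt), block NU2: the numbers of symmetric matrices over `𝔽₂` of given rank
-/

set_option autoImplicit false

namespace Pool.Agent.AVM

open Finset Filter Topology Pool.Agent.PQ Pool.Agent.GL

/-- `∏_{i ≤ s} 4^i / (4^i - 1)` -/
noncomputable def NU2_c (s : ℕ) : ℝ := ∏ i ∈ range s, ((4 : ℝ) ^ (i + 1) / ((4 : ℝ) ^ (i + 1) - 1))

/-- `∏_{i < m} (2^(k-i) - 1)` -/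
noncomputable def NU2_Q (k m : ℕ) : ℝ := ∏ i ∈ range m, ((2 : ℝ) ^ (k - i) - 1)

/-- the number of symmetric matrices of rank `r` -/
noncomputable def NU2_N (k r : ℕ) : ℝ := NU2_c (r / 2) * NU2_Q k r

theorem NU2_Q_succ (k m : ℕ) : NU2_Q k (m + 1) = NU2_Q k m * ((2 : ℝ) ^ (k - m) - 1) := by
  unfold NU2_Q; rw [prod_range_succ]

theorem NU2_Q_shift (k m : ℕ) : NU2_Q (k + 1) (m + 1) = ((2 : ℝ) ^ (k + 1) - 1) * NU2_Q k m := by
  unfold NU2_Q
  rw [prod_range_succ', mul_comm]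
  congr 1
  refine prod_congr rfl fun i _ => ?_
  rw [Nat.add_sub_add_right]

theorem NU2_c_succ (s : ℕ) : NU2_c (s + 1) = NU2_c s * ((4 : ℝ) ^ (s + 1) / ((4 : ℝ) ^ (s + 1) - 1)) := by
  unfold NU2_c; rw [prod_range_succ]

theorem NU2_four (s : ℕ) : (4 : ℝ) ^ (s + 1) - 1 ≠ 0 := by
  have h : (1 : ℝ) < (4 : ℝ) ^ (s + 1) := one_lt_pow₀ (by norm_num) (by omega)
  intro h0
  linarith

theorem NU2_pow {k t : ℕ} (h : t ≤ k) (u : ℕ) :
    (2 : ℝ) ^ (t + u) * ((2 : ℝ) ^ (k - t) - 1) = 2 ^ (k + u) - 2 ^ (t + u) := by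
  have : (2 : ℝ) ^ (k + u) = 2 ^ (t + u) * 2 ^ (k - t) := by
    rw [← pow_add]; congr 1; omega
  rw [this]; ring

/-- the recursion of the closed form -/
theorem NU2_N_rec (k t : ℕ) (h : t + 1 ≤ k) :
    NU2_N (k + 1) (t + 2) = ((2 : ℝ) ^ (k + 1) - 2 ^ (t + 1)) * NU2_N k t +
      2 ^ (t + 1) * NU2_N k (t + 1) + 2 ^ (t + 2) * NU2_N k (t + 2) := by
  have e1 : (2 : ℝ) ^ (t + 1) * ((2 : ℝ) ^ (k - t) - 1) = 2 ^ (k + 1) - 2 ^ (t + 1) :=
    NU2_pow (by omega) 1
  have e2 : (2 : ℝ) ^ (t + 1 + 1) * ((2 : ℝ) ^ (k - (t + 1)) - 1) = 2 ^ (k + 1) - 2 ^ (t + 1 + 1) :=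
    NU2_pow h 1
  unfold NU2_N
  rw [NU2_Q_shift, NU2_Q_succ k (t + 1), NU2_Q_succ k t]
  rcases Nat.even_or_odd' t with ⟨s, rfl | rfl⟩
  · have a1 : (2 * s + 2) / 2 = s + 1 := by omega
    have a2 : (2 * s + 1) / 2 = s := by omega
    have a3 : 2 * s / 2 = s := by omega
    rw [a1, a2, a3, NU2_c_succ]
    have hq : (2 : ℝ) ^ (2 * s + 2) = (4 : ℝ) ^ (s + 1) := by
      rw [show 2 * s + 2 = 2 * (s + 1) by ring, pow_mul]; norm_num
    have hq' : (2 : ℝ) ^ (2 * s + 1 + 1) = (4 : ℝ) ^ (s + 1) := hq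
    have h4 := NU2_four s
    have hh : (2 : ℝ) ^ (2 * s + 1) = (4 : ℝ) ^ (s + 1) / 2 := by
      rw [← hq, pow_succ]; ring
    rw [hq'] at e2
    rw [hh] at e1
    rw [hq, hh]
    set q : ℝ := (4 : ℝ) ^ (s + 1)
    set x : ℝ := (2 : ℝ) ^ (k - 2 * s) - 1
    set y : ℝ := (2 : ℝ) ^ (k - (2 * s + 1)) - 1
    set z : ℝ := (2 : ℝ) ^ (k + 1)
    set Q : ℝ := NU2_Q k (2 * s)
    set c : ℝ := NU2_c s
    have hz : z = q * y + q := by linarith
    have hx : q / 2 * x = q * y + q / 2 := by rw [e1, hz]; ring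
    rw [hz]
    have : (q * y + q - q / 2) = q / 2 * x := by rw [hx]; ring
    rw [this]
    field_simp
    ring
  · have a1 : (2 * s + 1 + 2) / 2 = s + 1 := by omega
    have a2 : (2 * s + 1 + 1) / 2 = s + 1 := by omega
    have a3 : (2 * s + 1) / 2 = s := by omega
    rw [a1, a2, a3, NU2_c_succ]
    have hq : (2 : ℝ) ^ (2 * s + 1 + 1) = (4 : ℝ) ^ (s + 1) := by
      rw [show 2 * s + 1 + 1 = 2 * (s + 1) by ring, pow_mul]; norm_num
    have h4 := NU2_four s
    have hh : (2 : ℝ) ^ (2 * s + 1 + 2) = (4 : ℝ) ^ (s + 1) * 2 := by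
      rw [← hq, ← pow_succ]
    have hh' : (2 : ℝ) ^ (2 * s + 1 + 1 + 1) = (4 : ℝ) ^ (s + 1) * 2 := hh
    rw [hh'] at e2
    rw [hq] at e1
    rw [hq, hh]
    set q : ℝ := (4 : ℝ) ^ (s + 1)
    set x : ℝ := (2 : ℝ) ^ (k - (2 * s + 1)) - 1
    set y : ℝ := (2 : ℝ) ^ (k - (2 * s + 1 + 1)) - 1
    set z : ℝ := (2 : ℝ) ^ (k + 1)
    set Q : ℝ := NU2_Q k (2 * s + 1)
    set c : ℝ := NU2_c s
    have hz : z = q * 2 * y + q * 2 := by linarith
    rw [hz]
    have : (q * 2 * y + q * 2 - q) = q * x := by rw [e1, hz]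
    rw [this]
    field_simp
    ring

theorem NU2_N_zero (k : ℕ) : NU2_N k 0 = 1 := by
  simp [NU2_N, NU2_c, NU2_Q]

theorem NU2_N_one (k : ℕ) : NU2_N k 1 = 2 ^ k - 1 := by
  simp [NU2_N, NU2_c, NU2_Q]

theorem NU2_N_big (k r : ℕ) (h : k < r) : NU2_N k r = 0 := by
  unfold NU2_N NU2_Q
  rw [prod_eq_zero (i := k) (mem_range.2 h) (by simp), mul_zero]

theorem NU2_half (k : ℕ) : (k + 1) * (k + 2) / 2 = k * (k + 1) / 2 + (k + 1) := by
  have : (k + 1) * (k + 2) = k * (k + 1) + (k + 1) * 2 := by ring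
  rw [this, Nat.add_mul_div_right _ _ (by norm_num)]

theorem NU2_base (a : ℕ) : PS 0 a = if a = 0 then 1 else 0 := by
  have hk : ∀ M : Matrix (Fin 0) (Fin 0) (ZMod 2), kc M = 1 := by
    intro M
    unfold kc
    rw [filter_true_of_mem (fun x _ => Subsingleton.elim _ _)]
    simp
  unfold PS NS
  split_ifs with h
  · subst h
    rw [filter_true_of_mem (fun M _ => ⟨Subsingleton.elim _ _, by rw [hk M]; norm_num⟩)]
    have h1 : Fintype.card (Matrix (Fin 0) (Fin 0) (ZMod 2)) = 1 := by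
      rw [Fintype.card_eq_one_iff]
      exact ⟨0, fun M => Subsingleton.elim _ _⟩
    simp [h1]
  · rw [filter_false_of_mem (fun M _ => ?_)]
    · simp
    · rintro ⟨_, h2⟩
      rw [hk M] at h2
      have : 1 < 2 ^ a := Nat.one_lt_two_pow h
      omega

/-- the closed form -/
theorem NU2_main (k : ℕ) : ∀ a : ℕ, PS k a =
    if a ≤ k then NU2_N k (k - a) / 2 ^ (k * (k + 1) / 2) else 0 := by
  induction k with
  | zero =>
    intro a
    rw [NU2_base]
    by_cases h : a = 0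
    · subst h; simp [NU2_N_zero]
    · rw [if_neg h, if_neg (by omega)]
  | succ k ih =>
    have hP : (2 : ℝ) ^ ((k + 1) * (k + 1 + 1) / 2) = 2 ^ (k * (k + 1) / 2) * 2 ^ (k + 1) := by
      rw [show k + 1 + 1 = k + 2 by ring, NU2_half, pow_add]
    have hp0 : (2 : ℝ) ^ (k * (k + 1) / 2) ≠ 0 := by positivity
    have hp1 : (2 : ℝ) ^ (k + 1) ≠ 0 := by positivity
    obtain ⟨r0, r1⟩ := ns_rec k
    intro a
    rcases a with _ | a
    · rw [r0, ih 0, ih 1, if_pos (Nat.zero_le _), if_pos (Nat.zero_le _), hP]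
      rcases k with _ | k
      · rw [if_neg (by omega), NU2_N_zero]
        simp [NU2_N_one]
        norm_num
      · rw [if_pos (by omega)]
        have e := NU2_N_rec (k + 1) k le_rfl
        rw [NU2_N_big (k + 1) (k + 2) (by omega)] at e
        simp only [Nat.sub_zero, Nat.add_sub_cancel]
        rw [e]
        field_simp
        try ring
    · rw [r1 a, ih (a + 2), ih (a + 1), ih a, hP]
      by_cases h1 : a + 2 ≤ k
      · rw [if_pos h1, if_pos (by omega), if_pos (by omega), if_pos (by omega)]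
        obtain ⟨b, rfl⟩ := Nat.exists_eq_add_of_le h1
        have s1 : a + 2 + b - (a + 2) = b := by omega
        have s2 : a + 2 + b - (a + 1) = b + 1 := by omega
        have s3 : a + 2 + b - a = b + 2 := by omega
        have s4 : a + 2 + b + 1 - (a + 1) = b + 2 := by omega
        rw [s1, s2, s3, s4, NU2_N_rec (a + 2 + b) b (by omega)]
        have t1 : (2 : ℝ) ^ (a + 2 + b + 1) = 2 ^ (a + 2) * 2 ^ (b + 1) := by
          rw [← pow_add]; congr 1
        have t2 : (2 : ℝ) ^ (b + 2) = 2 ^ (b + 1) * 2 := pow_succ _ _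
        have t3 : (2 : ℝ) ^ (a + 2) = 2 ^ (a + 1) * 2 := pow_succ _ _
        rw [t1, t2, t3]
        have u1 : (2 : ℝ) ^ (a + 1) ≠ 0 := by positivity
        have u2 : (2 : ℝ) ^ (b + 1) ≠ 0 := by positivity
        field_simp
      · rw [if_neg h1]
        by_cases h2 : a + 1 ≤ k
        · have hk : k = a + 1 := by omega
          subst hk
          rw [if_pos le_rfl, if_pos (by omega), if_pos (by omega)]
          have s2 : a + 1 - (a + 1) = 0 := by omega
          have s3 : a + 1 - a = 1 := by omega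
          have s4 : a + 1 + 1 - (a + 1) = 1 := by omega
          rw [s2, s3, s4, NU2_N_zero, NU2_N_one, NU2_N_one]
          have t3 : (2 : ℝ) ^ (a + 2) = 2 ^ (a + 1) * 2 := pow_succ _ _
          have t4 : (2 : ℝ) ^ (a + 1 + 1) = 2 ^ (a + 1) * 2 := pow_succ _ _
          rw [t4]
          have u1 : (2 : ℝ) ^ (a + 1) ≠ 0 := by positivity
          field_simp
          ring
        · rw [if_neg h2]
          by_cases h3 : a ≤ k
          · have hk : k = a := by omega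
            subst hk
            rw [if_pos le_rfl, if_pos le_rfl]
            simp only [Nat.sub_self]
            rw [NU2_N_zero, NU2_N_zero]
            field_simp
            ring
          · rw [if_neg h3, if_neg (by omega)]
            ring

theorem NU2_step (k : ℕ) : NU2_N (k + 1) (k + 1) / 2 ^ ((k + 1) * (k + 2) / 2) =
    NU2_N k k / 2 ^ (k * (k + 1) / 2) * (if Even k then 1 - 1 / 2 ^ (k + 1) else 1) := by
  rw [NU2_half, pow_add]
  have hp0 : (2 : ℝ) ^ (k * (k + 1) / 2) ≠ 0 := by positivity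
  have hp1 : (2 : ℝ) ^ (k + 1) ≠ 0 := by positivity
  unfold NU2_N
  rw [NU2_Q_shift]
  rcases Nat.even_or_odd' k with ⟨s, rfl | rfl⟩
  · rw [if_pos (even_two_mul s)]
    have a2 : (2 * s + 1) / 2 = s := by omega
    have a3 : 2 * s / 2 = s := by omega
    rw [a2, a3]
    field_simp
  · rw [if_neg (by rw [Nat.not_even_iff_odd]; exact odd_two_mul_add_one s)]
    have a2 : (2 * s + 1 + 1) / 2 = s + 1 := by omega
    have a3 : (2 * s + 1) / 2 = s := by omega
    rw [a2, a3, NU2_c_succ]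
    have hq : (2 : ℝ) ^ (2 * s + 1 + 1) = (4 : ℝ) ^ (s + 1) := by
      rw [show 2 * s + 1 + 1 = 2 * (s + 1) by ring, pow_mul]; norm_num
    rw [hq] at hp1 ⊢
    have h4 := NU2_four s
    field_simp

theorem ns_zero (k : ℕ) : PS k 0 = ∏ j ∈ range ((k + 1) / 2), (1 - 1 / 2 ^ (2 * j + 1) : ℝ) := by
  rw [NU2_main k 0, if_pos (Nat.zero_le _), Nat.sub_zero]
  induction k with
  | zero => simp [NU2_N_zero]
  | succ k ih =>
    rw [show k + 1 + 1 = k + 2 by ring, NU2_step, ih]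
    rcases Nat.even_or_odd' k with ⟨s, rfl | rfl⟩
    · rw [if_pos (even_two_mul s)]
      have a2 : (2 * s + 1) / 2 = s := by omega
      have a3 : (2 * s + 2) / 2 = s + 1 := by omega
      rw [a2, a3, prod_range_succ]
    · rw [if_neg (by rw [Nat.not_even_iff_odd]; exact odd_two_mul_add_one s)]
      have a2 : (2 * s + 1 + 1) / 2 = s + 1 := by omega
      have a3 : (2 * s + 1 + 2) / 2 = s + 1 := by omega
      rw [a2, a3, mul_one]

theorem NU2_prod (n : ℕ) : (5 : ℝ) / 12 * (1 + 3 / 4 * (1 / 4 ^ n)) ≤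
    ∏ j ∈ range n, (1 - 1 / 2 ^ (2 * j + 1) : ℝ) := by
  rcases n with _ | _ | n
  · norm_num
  · norm_num [prod_range_succ]
  · induction n with
    | zero => norm_num [prod_range_succ]
    | succ n ih =>
      rw [prod_range_succ]
      have e : (2 : ℝ) ^ (2 * (n + 1 + 1) + 1) = 4 ^ (n + 1 + 1) * 2 := by
        rw [pow_succ, pow_mul]; norm_num
      rw [e]
      set x : ℝ := 1 / 4 ^ (n + 1 + 1) with hx
      have hx0 : 0 < x := by positivity
      have hx1 : x ≤ 1 / 16 := by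
        rw [hx]
        apply one_div_le_one_div_of_le (by norm_num)
        calc (16 : ℝ) = 4 ^ 2 := by norm_num
          _ ≤ 4 ^ (n + 1 + 1) := pow_le_pow_right₀ (by norm_num) (by omega)
      have e1 : 1 / (4 : ℝ) ^ (n + 1 + 1 + 1) = x / 4 := by
        rw [hx, pow_succ (4 : ℝ) (n + 1 + 1)]; field_simp
      have e2 : 1 / ((4 : ℝ) ^ (n + 1 + 1) * 2) = x / 2 := by rw [hx]; field_simp
      rw [e1, e2]
      have h2 : 0 ≤ 1 - x / 2 := by linarith
      calc (5 : ℝ) / 12 * (1 + 3 / 4 * (x / 4)) ≤ 5 / 12 * (1 + 3 / 4 * x) * (1 - x / 2) := by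
            nlinarith
        _ ≤ _ := mul_le_mul_of_nonneg_right ih h2

/-- hence `PS k 0 + PS k 1 / 2 = PS k 0 / 2 + PS (k + 1) 0 > 5/8` -/
theorem ns_bound (k : ℕ) : (5 : ℝ) / 8 < PS k 0 + PS k 1 / 2 := by
  have h := (ns_rec k).1
  have h1 : PS k 0 + PS k 1 / 2 = PS k 0 / 2 + PS (k + 1) 0 := by rw [h]; ring
  rw [h1, ns_zero, ns_zero]
  have a := NU2_prod ((k + 1) / 2)
  have b := NU2_prod ((k + 1 + 1) / 2)
  have c : 0 < 1 / (4 : ℝ) ^ ((k + 1) / 2) := by positivity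
  have d : 0 < 1 / (4 : ℝ) ^ ((k + 1 + 1) / 2) := by positivity
  linarith

end Pool.Agent.AVM
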